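import Pool.Agent.Y811.IR.Stm

/-!
Project IR, job SURJ (helper770): `q c` maps immediate basins onto immediate basins.
-/

set_option autoImplicit false

open Filter Topology Metric Set

namespace Pool.Agent.Y770.IR

open Pool.Agent.Y811.IR

lemma q_cont (c : ℂ) : Continuous (q c) := by
  unfold q
  fun_prop

lemma q_diff (c : ℂ) : Differentiable ℂ (q c) := by
  unfold q
  fun_prop

lemma iter_diff (c : ℂ) (n : ℕ) : Differentiable ℂ ((q c)^[n]) :=
  (q_diff c).iterate n

lemma attr_q {c : ℂ} {N : ℕ} {a : ℂ} (hA : Attr c N a) : Attr c N (q c a) := by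
  obtain ⟨h1, h2, h3⟩ := hA
  obtain ⟨M, rfl⟩ : ∃ M, N = M + 1 := ⟨N - 1, by omega⟩
  refine ⟨h1, ?_, ?_⟩
  · rw [← Function.iterate_succ_apply, Function.iterate_succ_apply', h2]
  · have e1 : deriv ((q c)^[M + 1]) a = deriv ((q c)^[M]) (q c a) * deriv (q c) a := by
      rw [Function.iterate_succ]
      exact deriv_comp a ((iter_diff c M) _) ((q_diff c) _)
    have e2 : deriv ((q c)^[M + 1]) (q c a) = deriv (q c) a * deriv ((q c)^[M]) (q c a) := by
      rw [Function.iterate_succ', deriv_comp (q c a) ((q_diff c) _) ((iter_diff c M) _)]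
      rw [← Function.iterate_succ_apply, h2]
    rw [e2, mul_comm, ← e1]
    exact h3

lemma q_open (c : ℂ) {s : Set ℂ} (hs : IsOpen s) : IsOpen (q c '' s) := by
  have han : AnalyticOnNhd ℂ (q c) univ := fun z _ => (q_diff c).analyticAt z
  rcases han.is_constant_or_isOpen isPreconnected_univ with ⟨w, hw⟩ | h
  · exfalso
    have h0 := hw 0 (mem_univ _)
    have h1 := hw 1 (mem_univ _)
    rw [← h0] at h1
    simp [q] at h1
  · exact h s (subset_univ _) hs

lemma q_closed (c : ℂ) : IsClosedMap (q c) := by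
  have h : Tendsto (q c) (cocompact ℂ) (cocompact ℂ) := by
    rw [← Metric.cobounded_eq_cocompact, ← tendsto_norm_atTop_iff_cobounded]
    have h1 : Tendsto (fun z : ℂ => ‖z‖ ^ 2 - ‖c‖) (Bornology.cobounded ℂ) atTop :=
      tendsto_atTop_add_const_right _ _
        ((tendsto_pow_atTop (by norm_num)).comp tendsto_norm_cobounded_atTop)
    refine tendsto_atTop_mono (fun z => ?_) h1
    have h2 : ‖z ^ 2‖ ≤ ‖z ^ 2 + c‖ + ‖c‖ := by
      calc ‖z ^ 2‖ = ‖(z ^ 2 + c) - c‖ := by rw [add_sub_cancel_right]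
        _ ≤ _ := norm_sub_le _ _
    rw [norm_pow] at h2
    show ‖z‖ ^ 2 - ‖c‖ ≤ ‖z ^ 2 + c‖
    linarith
  exact (isProperMap_iff_tendsto_cocompact.2 ⟨q_cont c, h⟩).isClosedMap

lemma basin_fwd {c : ℂ} {N : ℕ} {a z : ℂ} (hz : z ∈ Basin ((q c)^[N]) a) :
    q c z ∈ Basin ((q c)^[N]) (q c a) := by
  have h1 : Tendsto (fun n : ℕ => ((q c)^[N])^[n] z) atTop (𝓝 a) := hz
  show Tendsto (fun n : ℕ => ((q c)^[N])^[n] (q c z)) atTop (𝓝 (q c a))
  have h2 : (fun n : ℕ => ((q c)^[N])^[n] (q c z)) = fun n => q c (((q c)^[N])^[n] z) := by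
    funext n
    rw [← Function.iterate_mul, ← Function.iterate_succ_apply, Function.iterate_succ_apply']
  rw [h2]
  exact ((q_cont c).tendsto a).comp h1

lemma basin_bwd {c : ℂ} {N : ℕ} {a z : ℂ} (hA : Attr c N a)
    (hz : q c z ∈ Basin ((q c)^[N]) (q c a)) : z ∈ Basin ((q c)^[N]) a := by
  obtain ⟨h1, h2, h3⟩ := hA
  obtain ⟨M, rfl⟩ : ∃ M, N = M + 1 := ⟨N - 1, by omega⟩
  have h4 : Tendsto (fun n : ℕ => ((q c)^[M + 1])^[n] (q c z)) atTop (𝓝 (q c a)) := hz
  show Tendsto (fun n : ℕ => ((q c)^[M + 1])^[n] z) atTop (𝓝 a)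
  rw [← tendsto_add_atTop_iff_nat 1]
  have h5 : (fun n : ℕ => ((q c)^[M + 1])^[n + 1] z) =
      fun n => (q c)^[M] (((q c)^[M + 1])^[n] (q c z)) := by
    funext n
    rw [← Function.iterate_mul, ← Function.iterate_mul, ← Function.iterate_succ_apply,
      ← Function.iterate_add_apply]
    have e : (M + 1) * (n + 1) = M + ((M + 1) * n).succ := by
      rw [Nat.succ_eq_add_one]
      ring
    rw [e]
  rw [h5]
  have h6 : (q c)^[M] (q c a) = a := by
    rw [← Function.iterate_succ_apply]
    exact h2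
  have h7 := (((iter_diff c M).continuous).tendsto (q c a)).comp h4
  rw [h6] at h7
  exact h7

theorem t_SURJ (h : S_BASIN) : S_SURJ := by
  intro c N a hA
  have hA' := attr_q hA
  refine ⟨hA', ?_, fun z hz => basin_bwd hA hz⟩
  obtain ⟨hBo, haB, -⟩ := h c N a hA
  obtain ⟨hBo', haB', -⟩ := h c N (q c a) hA'
  have haI : a ∈ Imm ((q c)^[N]) a := mem_connectedComponentIn haB
  have haI' : q c a ∈ Imm ((q c)^[N]) (q c a) := mem_connectedComponentIn haB'
  apply Subset.antisymm
  · apply IsPreconnected.subset_connectedComponentIn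
    · exact isPreconnected_connectedComponentIn.image _ (q_cont c).continuousOn
    · exact ⟨a, haI, rfl⟩
    · rintro _ ⟨z, hz, rfl⟩
      exact basin_fwd (connectedComponentIn_subset _ _ hz)
  · refine IsPreconnected.subset_left_of_subset_union (u := q c '' Imm ((q c)^[N]) a)
      (v := (closure (q c '' Imm ((q c)^[N]) a))ᶜ) (q_open c hBo.connectedComponentIn)
      isClosed_closure.isOpen_compl ?_ ?_ ?_ isPreconnected_connectedComponentIn
    · exact (disjoint_compl_right_iff_subset.2 subset_closure)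
    · intro y hy
      by_cases hyc : y ∈ closure (q c '' Imm ((q c)^[N]) a)
      · left
        obtain ⟨x, hx, rfl⟩ := (q_closed c).closure_image_subset _ hyc
        have hxB : x ∈ Basin ((q c)^[N]) a := basin_bwd hA (connectedComponentIn_subset _ _ hy)
        have hxo : IsOpen (connectedComponentIn (Basin ((q c)^[N]) a) x) :=
          hBo.connectedComponentIn
        obtain ⟨w, hw1, hw2⟩ := mem_closure_iff.1 hx _ hxo (mem_connectedComponentIn hxB)
        have e1 := connectedComponentIn_eq hw1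
        have e2 : connectedComponentIn (Basin ((q c)^[N]) a) a =
          connectedComponentIn (Basin ((q c)^[N]) a) w := connectedComponentIn_eq hw2
        refine ⟨x, ?_, rfl⟩
        show x ∈ connectedComponentIn (Basin ((q c)^[N]) a) a
        rw [e2, ← e1]
        exact mem_connectedComponentIn hxB
      · right
        exact hyc
    · exact ⟨q c a, haI', ⟨a, haI, rfl⟩⟩

end Pool.Agent.Y770.IR
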